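import Mathlib

/-! Algebraic entropy is unchanged by restriction to an invariant uniform discrete subgroup. -/

open Filter Topology Set MeasureTheory
open scoped Pointwise

noncomputable section

namespace Pool.Agent.Results.MP_5d7a45_an.Lattice

/-- The trajectory `U + φ U + ⋯ + φ^(n-1) U`. -/
def traj {G : Type*} [AddCommGroup G] (φ : G →+ G) (U : Set G) (n : ℕ) : Set G :=
  ∑ i ∈ Finset.range n, φ^[i] '' U

/-- Algebraic entropy of `φ` computed with the measure `μ`. -/
def hA {G : Type*} [AddCommGroup G] [TopologicalSpace G] [MeasurableSpace G] (μ : Measure G)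
    (φ : G →+ G) : EReal :=
  ⨆ U ∈ {U : Set G | IsCompact U ∧ U ∈ 𝓝 0},
    limsup (fun n : ℕ => ENNReal.log (μ (traj φ U n)) / n) atTop

section
variable {G : Type*} [AddCommGroup G]

theorem traj_zero (φ : G →+ G) (U : Set G) : traj φ U 0 = {0} := by
  simp [traj]
  rfl

theorem traj_succ (φ : G →+ G) (U : Set G) (n : ℕ) :
    traj φ U (n + 1) = φ '' traj φ U n + U := by
  rw [traj, Finset.sum_range_succ', traj, Set.image_finsetSum]
  simp only [Function.iterate_succ', image_comp, Function.iterate_zero, image_id]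

theorem traj_mono (φ : G →+ G) {U V : Set G} (h : U ⊆ V) (n : ℕ) : traj φ U n ⊆ traj φ V n := by
  induction n with
  | zero => simp [traj_zero]
  | succ n ih =>
    rw [traj_succ, traj_succ]
    exact add_subset_add (image_mono ih) h

theorem traj_finite (φ : G →+ G) {U : Set G} (h : U.Finite) (n : ℕ) : (traj φ U n).Finite := by
  induction n with
  | zero => simp [traj_zero]
  | succ n ih =>
    rw [traj_succ]
    exact (ih.image _).add h

theorem traj_image {H : Type*} [AddCommGroup H] (φ : G →+ G) (ψ : H →+ H) (j : H →+ G)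
    (h : ∀ x, j (ψ x) = φ (j x)) (F : Set H) (n : ℕ) : j '' traj ψ F n = traj φ (j '' F) n := by
  induction n with
  | zero => simp [traj_zero]
  | succ n ih =>
    rw [traj_succ, traj_succ, image_add, ← ih, image_image, image_image]
    simp only [h]

theorem traj_upper (φ : G →+ G) {F C : Set G} (h0 : (0 : G) ∈ C) (h : φ '' C + C ⊆ F + C)
    (n : ℕ) : traj φ C n ⊆ traj φ F n + C := by
  induction n with
  | zero =>
    rw [traj_zero, traj_zero]
    simpa using h0
  | succ n ih =>
    rw [traj_succ, traj_succ, add_assoc]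
    refine (add_subset_add_right (image_mono ih)).trans ?_
    rw [image_add, add_assoc]
    exact add_subset_add_left h

theorem traj_lower (φ : G →+ G) {F V : Set G} (h0 : (0 : G) ∈ V) (n : ℕ) :
    traj φ F (n + 1) + V ⊆ traj φ (F + V) (n + 1) := by
  rw [traj_succ, traj_succ, add_assoc]
  exact add_subset_add_right (image_mono (traj_mono φ (subset_add_left F h0) n))

variable [MeasurableSpace G] [MeasurableAdd G] (μ : Measure G) [μ.IsAddLeftInvariant]

theorem meas_le (S : Finset G) (C : Set G) : μ (S + C) ≤ S.card * μ C := by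
  rw [← vadd_eq_add, ← iUnion_vadd_set]
  refine (measure_biUnion_finset_le S _).trans_eq ?_
  simp

theorem meas_eq (S : Finset G) {V : Set G} (hV : MeasurableSet V)
    (h : ∀ s ∈ S, ∀ t ∈ S, ∀ v ∈ V, ∀ w ∈ V, s + v = t + w → s = t) :
    μ (S + V) = S.card * μ V := by
  rw [← vadd_eq_add, ← iUnion_vadd_set]
  refine (measure_biUnion_finset (f := fun s => s +ᵥ V) (fun s hs t ht hst => ?_)
    fun s _ => hV.const_vadd s).trans (by simp)
  refine disjoint_left.2 ?_
  rintro _ ⟨v, hv, rfl⟩ ⟨w, hw, h1⟩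
  exact hst (h s hs t ht v hv w hw h1.symm)

end

theorem result {G : Type*} [AddCommGroup G] [TopologicalSpace G] [IsTopologicalAddGroup G]
    [LocallyCompactSpace G] [T2Space G] [MeasurableSpace G] [BorelSpace G]
    (μ : Measure G) [μ.IsAddHaarMeasure] (φ : G →+ G) (hφ : Continuous φ)
    (K : AddSubgroup G) [DiscreteTopology K] [CompactSpace (G ⧸ K)] (hK : ∀ x ∈ K, φ x ∈ K)
    (ν : Measure K) [ν.IsAddHaarMeasure] :
    hA μ φ = hA ν ((φ.comp K.subtype).codRestrict K fun x => hK x x.2) := by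
  classical
  set ψ := (φ.comp K.subtype).codRestrict K fun x => hK x x.2
  have hψ : ∀ x, K.subtype (ψ x) = φ (K.subtype x) := fun x => rfl
  have hfin : ∀ C : Set G, IsCompact C → (K.subtype ⁻¹' C).Finite := fun C hC => by
    have := K.tendsto_coe_cofinite_of_discrete (isDiscrete_iff_discreteTopology.2 inferInstance)
      hC.compl_mem_cocompact
    simpa using this
  have hν0 : ν {0} ≠ 0 := ((isOpen_discrete _).measure_pos ν (singleton_nonempty _)).ne'
  have hν1 : ν {0} ≠ ⊤ := isCompact_singleton.measure_lt_top.ne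
  have hν : ∀ S : Finset K, ν S = S.card * ν {0} := fun S => by
    rw [← meas_eq ν S (measurableSet_singleton 0) fun s _ t _ v hv w hw h => by
      rw [mem_singleton_iff] at hv hw
      simpa [hv, hw] using h]
    simp
  have hcard : ∀ S : Finset K, (S.image K.subtype).card = S.card := fun S =>
    Finset.card_image_of_injective S K.subtype_injective
  refine le_antisymm (iSup₂_le fun U hU => ?_) (iSup₂_le fun F hF => ?_)
  · obtain ⟨V, hV, hV0⟩ := exists_compact_mem_nhds (0 : G)
    obtain ⟨t, ht⟩ := isCompact_univ.elim_finite_subcover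
      (fun g : G => (QuotientAddGroup.mk : G → G ⧸ K) '' (g +ᵥ interior V))
      (fun g => QuotientAddGroup.isOpenMap_coe _ (isOpen_interior.vadd g)) (by
        intro q _
        obtain ⟨g, rfl⟩ := QuotientAddGroup.mk_surjective q
        exact mem_iUnion.2 ⟨g, g, ⟨0, mem_interior_iff_mem_nhds.2 hV0, by simp⟩, rfl⟩)
    set C := U ∪ (t + V) with hC
    have hCc : IsCompact C := hU.1.union (t.finite_toSet.isCompact.add hV)
    have hcov : ∀ x : G, ∃ c ∈ C, x - c ∈ K := by
      intro x
      obtain ⟨g, hg, _, ⟨v, hv, rfl⟩, h⟩ := mem_iUnion₂.1 (ht (mem_univ (x : G ⧸ K)))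
      refine ⟨g + v, Or.inr (add_mem_add hg (interior_subset hv)), ?_⟩
      have := QuotientAddGroup.eq.1 h
      rwa [neg_add_eq_sub] at this
    have h0 : (0 : G) ∈ C := Or.inl (mem_of_mem_nhds hU.2)
    set F := insert 0 (K.subtype ⁻¹' (φ '' C + C + -C)) with hF
    have hFf : F.Finite := (hfin _ (((hCc.image hφ).add hCc).add hCc.neg)).insert 0
    have hsub : φ '' C + C ⊆ K.subtype '' F + C := by
      intro x hx
      obtain ⟨c, hc, h⟩ := hcov x
      refine ⟨x - c, ⟨⟨x - c, h⟩, Or.inr ?_, rfl⟩, c, hc, by simp⟩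
      exact ⟨x, hx, -c, by simpa using hc, by simp [sub_eq_add_neg]⟩
    refine le_trans ?_ (le_iSup₂_of_le F ⟨hFf.isCompact,
      (isOpen_discrete _).mem_nhds (mem_insert _ _)⟩ le_rfl)
    refine ExpGrowth.expGrowthSup_le_of_eventually_le (u := fun n => μ (traj φ U n))
      (v := fun n => ν (traj ψ F n)) (b := μ C / ν {0})
      (ENNReal.div_ne_top hCc.measure_lt_top.ne hν0) (Eventually.of_forall fun n => ?_)
    obtain ⟨S, hS⟩ := (traj_finite ψ hFf n).exists_finset_coe
    have h1 := (traj_mono φ subset_union_left n).trans (traj_upper φ h0 hsub n)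
    rw [← traj_image φ ψ _ hψ, ← hS, ← Finset.coe_image] at h1
    refine ((measure_mono h1).trans (meas_le μ _ C)).trans_eq ?_
    rw [hcard, ← hS, hν, mul_left_comm, ENNReal.div_mul_cancel hν0 hν1]
  · have hFf : F.Finite := hF.1.finite_of_discrete
    obtain ⟨W, hW, hW1⟩ : ∃ W ∈ 𝓝 (0 : G), K.subtype ⁻¹' W ⊆ {0} :=
      (mem_nhds_induced _ _ _).1 ((isOpen_discrete ({0} : Set K)).mem_nhds rfl)
    obtain ⟨V0, hV0, hV1⟩ := exists_nhds_half_neg hW
    obtain ⟨V, hV, hV2, hV3⟩ := local_compact_nhds hV0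
    have h0 : (0 : G) ∈ K.subtype '' F := ⟨0, mem_of_mem_nhds hF.2, rfl⟩
    refine le_trans ?_ (le_iSup₂_of_le (K.subtype '' F + V) ⟨(hFf.image _).isCompact.add hV3,
      mem_of_superset hV (subset_add_right V h0)⟩ le_rfl)
    have hμ0 : μ V ≠ 0 := (Measure.measure_pos_of_mem_nhds μ hV).ne'
    refine ExpGrowth.expGrowthSup_le_of_eventually_le (u := fun n => ν (traj ψ F n))
      (v := fun n => μ (traj φ (K.subtype '' F + V) n)) (b := ν {0} / μ V)
      (ENNReal.div_ne_top hν1 hμ0) (eventually_atTop.2 ⟨1, fun n hn => ?_⟩)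
    obtain ⟨n, rfl⟩ := Nat.exists_eq_add_of_le' hn
    obtain ⟨S, hS⟩ := (traj_finite ψ hFf (n + 1)).exists_finset_coe
    have h1 := traj_lower φ (F := K.subtype '' F) (mem_of_mem_nhds hV) n
    rw [← traj_image φ ψ _ hψ, ← hS, ← Finset.coe_image] at h1
    refine le_trans (le_of_eq ?_) (mul_le_mul_right (measure_mono h1) _)
    rw [meas_eq μ _ hV3.measurableSet, hcard, ← hS, hν, mul_left_comm,
      ENNReal.div_mul_cancel hμ0 hV3.measure_lt_top.ne]
    intro s hs t ht v hv w hw h
    obtain ⟨s, -, rfl⟩ := Finset.mem_image.1 hs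
    obtain ⟨t, -, rfl⟩ := Finset.mem_image.1 ht
    have h2 : s - t ∈ K.subtype ⁻¹' W := by
      rw [mem_preimage, map_sub, show K.subtype s - K.subtype t = w - v by
        rw [sub_eq_sub_iff_add_eq_add, h, add_comm]]
      exact hV1 w (hV2 hw) v (hV2 hv)
    rw [sub_eq_zero.1 (hW1 h2)]

end Pool.Agent.Results.MP_5d7a45_an.Lattice
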